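import Pool.Agent.Helper712_LP.Final
import Pool.Agent.Helper774_LP.Perc
import Pool.Agent.Helper209_LP.CritScale

/-!
# MP_f368f5_pr: the detection threshold for non-anticipating targets

For every dimension `d ≥ 1`, every radius `r > 0` and both conventions for the balls, the
threshold `lamPast` is at most the vacancy percolation threshold `lamCrit`.
-/

set_option autoImplicit false

namespace Pool.Agent.Results.MP_f368f5_pr.DetectionThreshold

open MeasureTheory ProbabilityTheory
open Pool.Agent.Helper712_LP
open scoped ENNReal NNReal

/-- Above the vacancy percolation threshold every non-anticipating target is detected almost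
surely, so `lamPast ≤ lamCrit`. The last part says that the systems of mobile nodes over which
`AlwaysDetected` quantifies exist. -/
theorem result (d : ℕ) (hd : 1 ≤ d) (r : ℝ) (hr : 0 < r) (closed : Bool) :
    lamPast closed d r ≤ lamCrit closed d r ∧
    (∀ lam : ℝ≥0, lamCrit closed d r < lam → AlwaysDetected closed d r lam) ∧
    ∀ lam : ℝ≥0, 0 < lam → ∃ (Ω : Type) (_ : MeasurableSpace Ω) (P : Measure Ω)
      (_ : IsProbabilityMeasure P) (X : ℕ → Ω → E d) (Z : ℕ → ℝ≥0 → Ω → E d),
      MobileNodes P lam X Z := by
  have hperc : S_perc := Helper774_LP.perc Helper56_LP.exists_ppp Helper56_LP.void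
    Helper114_LP.law
  have hcrit : S_critScale := Helper209_LP.critScale Helper209_LP.scale
  exact ⟨lamPast_le hperc hcrit closed d hd r hr,
    fun lam hlam => always_detected hperc hcrit closed d hd r hr lam hlam,
    fun lam hlam => Helper56_LP.exists_mobile d hd lam hlam⟩

end Pool.Agent.Results.MP_f368f5_pr.DetectionThreshold
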